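import Pool.Agent.Lib.MP_634427_lc.Data

/-!
# Definitions for problem MP_bb9e9d_lc

Circumscribed DL-Lite with Boolean operators and functional roles (`DL-Lite_bool^F`), the
satisfiability problem `SAT`, the complexity class NEXP and polynomial-time many-one reductions.

Concept names, role names and individual names are natural numbers.  Inputs are words over
`{0,1}`.  A word codes a binary tree (`code`), and trees code pairs, lists and natural numbers
(`enc`, numbers in unary).  `PT f` says that `f` is computable in polynomial time (Cobham's function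
algebra on binary trees, see `Pool.Agent.Lib.MP_634427_lc.Model`).
-/

namespace Pool.Agent.Lib.MP_bb9e9d_lc

open MP_634427_lc

/-! ## Syntax -/

/-- A role: `(false, P)` is the role name `P`, `(true, P)` is its inverse `P⁻`. -/
abbrev Rl : Type := Bool × ℕ

/-- Concepts of `DL-Lite_bool^F`. -/
inductive Con : Type
  /-- `⊤` -/
  | top : Con
  /-- `⊥` -/
  | bot : Con
  /-- a concept name -/
  | name : ℕ → Con
  /-- `∃R` -/
  | ex : Rl → Con
  /-- `¬C` -/
  | neg : Con → Con
  /-- `C ⊓ D` -/
  | inter : Con → Con → Con
  deriving DecidableEq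

/-- The syntax tree of a concept. -/
def Con.toBT : Con → BT
  | .top => .node (enc (0 : ℕ)) .nil
  | .bot => .node (enc (1 : ℕ)) .nil
  | .name A => .node (enc (2 : ℕ)) (enc A)
  | .ex R => .node (enc (3 : ℕ)) (enc R)
  | .neg C => .node (enc (4 : ℕ)) C.toBT
  | .inter C D => .node (enc (5 : ℕ)) (.node C.toBT D.toBT)

instance : Enc Con := ⟨Con.toBT⟩

/-- An input of the problem: a concept `C₀`, a knowledge base (a TBox and an ABox), and a
circumscription pattern. -/
structure Inst : Type where
  /-- the concept `C₀` -/
  C0 : Con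
  /-- the concept inclusions `C ⊑ D` of the TBox -/
  cis : List (Con × Con)
  /-- the functionality assertions `func(R)` of the TBox -/
  funcs : List Rl
  /-- the assertions `A(a)` of the ABox, as pairs `(A, a)` -/
  cass : List (ℕ × ℕ)
  /-- the assertions `P(a,b)` of the ABox, as triples `(P, a, b)` -/
  rass : List (ℕ × ℕ × ℕ)
  /-- the minimized concept names (no role name is minimized) -/
  mins : List ℕ
  /-- the relation `≺` between minimized concept names -/
  prio : List (ℕ × ℕ)
  /-- the fixed concept names -/
  fixC : List ℕ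
  /-- the fixed role names; all other names are varying -/
  fixR : List ℕ

/-- The components of an input as nested pairs. -/
def Inst.tup (K : Inst) : Con × List (Con × Con) × List Rl × List (ℕ × ℕ) × List (ℕ × ℕ × ℕ) ×
    List ℕ × List (ℕ × ℕ) × List ℕ × List ℕ :=
  (K.C0, K.cis, K.funcs, K.cass, K.rass, K.mins, K.prio, K.fixC, K.fixR)

instance : Enc Inst := ⟨fun K => enc K.tup⟩

/-- `≺` is a strict partial order on the minimized names, and no name is both minimized and
fixed. -/
structure Inst.Valid (K : Inst) : Prop where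
  prio_mem : ∀ p ∈ K.prio, p.1 ∈ K.mins ∧ p.2 ∈ K.mins
  irrefl : ∀ p ∈ K.prio, p.1 ≠ p.2
  trans : ∀ p ∈ K.prio, ∀ q ∈ K.prio, p.2 = q.1 → (p.1, q.2) ∈ K.prio
  disj : ∀ A ∈ K.mins, A ∉ K.fixC

/-- The individual names that occur in the ABox. -/
def Inst.inds (K : Inst) : List ℕ :=
  K.cass.map (fun p => p.2) ++ K.rass.flatMap fun p => [p.2.1, p.2.2]

/-! ## Semantics -/

/-- Interpretations of all names over the domain `Δ`. -/
structure Interp (Δ : Type) : Type where
  /-- concept names -/
  con : ℕ → Set Δ
  /-- role names -/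
  role : ℕ → Set (Δ × Δ)
  /-- individual names -/
  ind : ℕ → Δ

variable {Δ : Type}

/-- `(d, e)` belongs to the interpretation of the role `R`. -/
def Interp.Rel (I : Interp Δ) (R : Rl) (d e : Δ) : Prop :=
  if R.1 then (e, d) ∈ I.role R.2 else (d, e) ∈ I.role R.2

/-- The interpretation of a concept. -/
def Con.ext (I : Interp Δ) : Con → Set Δ
  | .top => Set.univ
  | .bot => ∅
  | .name A => I.con A
  | .ex R => {d | ∃ e, I.Rel R d e}
  | .neg C => (C.ext I)ᶜ
  | .inter C D => C.ext I ∩ D.ext I

/-- `I` is a model of the knowledge base of `K`. -/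
structure Models (I : Interp Δ) (K : Inst) : Prop where
  cis : ∀ p ∈ K.cis, p.1.ext I ⊆ p.2.ext I
  funcs : ∀ R ∈ K.funcs, ∀ d e e', I.Rel R d e → I.Rel R d e' → e = e'
  cass : ∀ p ∈ K.cass, I.ind p.2 ∈ I.con p.1
  rass : ∀ p ∈ K.rass, (I.ind p.2.1, I.ind p.2.2) ∈ I.role p.1

/-- `J <_CP I`. -/
structure Less (K : Inst) (J I : Interp Δ) : Prop where
  /-- the same individuals -/
  ind : J.ind = I.ind
  /-- the same fixed concept names -/
  fixC : ∀ A ∈ K.fixC, J.con A = I.con A
  /-- the same fixed role names -/
  fixR : ∀ P ∈ K.fixR, J.role P = I.role P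
  /-- condition (3) -/
  grow : ∀ p ∈ K.mins, ¬ J.con p ⊆ I.con p → ∃ q, (q, p) ∈ K.prio ∧ J.con q ⊂ I.con q
  /-- condition (4) -/
  less : ∃ p ∈ K.mins, J.con p ⊂ I.con p ∧ ∀ q, (q, p) ∈ K.prio → J.con q = I.con q

/-- `I` is a model of the circumscribed knowledge base. -/
def CircModel (K : Inst) (I : Interp Δ) : Prop :=
  Models I K ∧ ∀ J : Interp Δ, Less K J I → ¬ Models J K

/-- The unique name assumption: for the individual names that occur in the ABox (`u = false`) or
for all individual names (`u = true`). -/
def Una (u : Bool) (K : Inst) (I : Interp Δ) : Prop :=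
  ∀ a b, (u = true ∨ (a ∈ K.inds ∧ b ∈ K.inds)) → I.ind a = I.ind b → a = b

/-- The decision problem SAT (`u` selects the form of the unique name assumption): the set of
(codes of) inputs such that `C₀` is non-empty in some model of the circumscribed knowledge base. -/
def SAT (u : Bool) : Set Word :=
  {w | ∃ K : Inst, w = code (enc K) ∧ K.Valid ∧
    ∃ (Δ : Type) (I : Interp Δ), Una u K I ∧ CircModel K I ∧ (K.C0.ext I).Nonempty}

/-! ## Complexity -/

/-- `L` is in NEXP: there is a polynomial-time verifier for witnesses of exponential length (the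
running time is polynomial in the length of the input and the witness together). -/
def InNEXP (L : Set Word) : Prop :=
  ∃ (V : Word × Word → Bool) (c : ℕ), PT V ∧
    ∀ x, x ∈ L ↔ ∃ u : Word, u.length ≤ 2 ^ (x.length ^ c + c) ∧ V (x, u) = true

/-- `A` reduces to `B` by a polynomial-time many-one reduction. -/
def Reduces (A B : Set Word) : Prop := ∃ f : Word → Word, PT f ∧ ∀ w, w ∈ A ↔ f w ∈ B

/-- NEXP-completeness under polynomial-time many-one reductions. -/
def NEXPComplete (L : Set Word) : Prop := InNEXP L ∧ ∀ A : Set Word, InNEXP A → Reduces A L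

end Pool.Agent.Lib.MP_bb9e9d_lc
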