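import Pool.Agent.Lib.MP_bb9e9d_lc.Ver.Main
import Pool.Agent.Lib.MP_bb9e9d_lc.Hard.Main

/-! # SAT is NEXP-complete -/

namespace Pool.Agent.Lib.MP_bb9e9d_lc

theorem sat_complete (u : Bool) : NEXPComplete (SAT u) :=
  ⟨sat_mem u, fun _ hA => sat_hard u hA⟩

end Pool.Agent.Lib.MP_bb9e9d_lc
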